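import Pool.Agent.Helper20.FS.St

/-!
# Project SL, module ML (Mittag-Leffler)
-/

open Topology Filter

namespace Pool.Agent.Helper67.SL

open Pool.Agent.Helper20.FA Pool.Agent.Helper20.FR Pool.Agent.Helper20.FS

attribute [local instance] IsFrechet.tag IsFrechet.csm IsFrechet.lcs

section alg

variable {A : Type} [CommRing A] [Algebra ℂ A]

private lemma pow_bd (p : Seminorm ℂ A) (hm : ∀ a b, p (a * b) ≤ p a * p b) (x : A) (n : ℕ) :
    p (x ^ (n + 1)) ≤ p x ^ (n + 1) := by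
  induction n with
  | zero => simp
  | succ n ih =>
    rw [pow_succ, pow_succ (p x)]
    exact (hm _ _).trans (mul_le_mul_of_nonneg_right ih (apply_nonneg p x))

private lemma improve [TopologicalSpace A] (p q r : Seminorm ℂ A) (hp : Good p) (hr : Good r)
    (h : ∃ x, p (1 - x) < 1 / 2 ∧ ∃ C : ℝ, ∀ b, r (x * b) ≤ C * q b) (ε : ℝ) (hε : 0 < ε) :
    ∃ y, p (1 - y) ≤ ε ∧ ∃ C : ℝ, 0 ≤ C ∧ ∀ b, r (y * b) ≤ C * q b := by
  obtain ⟨x, hx, C, hC⟩ := h
  obtain ⟨n, hn⟩ := exists_pow_lt_of_lt_one hε (by norm_num : (1 / 2 : ℝ) < 1)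
  refine ⟨1 - (1 - x) ^ (n + 1), ?_, r (∑ i ∈ Finset.range (n + 1), (1 - x) ^ i) * max C 0,
    mul_nonneg (apply_nonneg _ _) (le_max_right _ _), fun b => ?_⟩
  · rw [sub_sub_cancel]
    refine (pow_bd p hp.2 _ n).trans ?_
    have h1 : p (1 - x) ^ (n + 1) ≤ (1 / 2 : ℝ) ^ (n + 1) :=
      pow_le_pow_left₀ (apply_nonneg _ _) hx.le _
    have h2 : (1 / 2 : ℝ) ^ (n + 1) ≤ (1 / 2 : ℝ) ^ n :=
      pow_le_pow_of_le_one (by norm_num) (by norm_num) (Nat.le_succ n)
    linarith
  · have h1 : 1 - (1 - x) ^ (n + 1) = (∑ i ∈ Finset.range (n + 1), (1 - x) ^ i) * x := by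
      have h2 := geom_sum_mul_neg (1 - x) (n + 1)
      rw [sub_sub_cancel] at h2
      exact h2.symm
    rw [h1, mul_assoc]
    refine (hr.2 _ _).trans ?_
    rw [mul_assoc]
    refine mul_le_mul_of_nonneg_left ?_ (apply_nonneg _ _)
    exact (hC b).trans (mul_le_mul_of_nonneg_right (le_max_left _ _) (apply_nonneg _ _))

end alg

/-- From a bound on the unit balls to a bound of seminorms. -/
private lemma le_of_ball {E : Type} [AddCommGroup E] [Module ℂ E] (s v : Seminorm ℂ E)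
    (h : ∀ x, v x < 1 → s x < 1) (x : E) : s x ≤ v x := by
  refine le_of_forall_pos_le_add fun ε hε => ?_
  have hv := apply_nonneg v x
  have ht : 0 < v x + ε := by linarith
  have h4 : v ((((v x + ε)⁻¹ : ℝ) : ℂ) • x) < 1 := by
    rw [map_smul_eq_mul, Complex.norm_real, Real.norm_of_nonneg (by positivity),
      inv_mul_lt_iff₀ ht]
    linarith
  have h5 := h _ h4
  rw [map_smul_eq_mul, Complex.norm_real, Real.norm_of_nonneg (by positivity),
      inv_mul_lt_iff₀ ht, mul_one] at h5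
  exact h5.le

/-- A countable family of seminorms. -/
private lemma exists_fam (A : Type) [AddCommGroup A] [Module ℂ A] [TopologicalSpace A]
    [IsFrechet A] : ∃ v : ℕ → Seminorm ℂ A, (∀ n, Continuous (v n)) ∧
      (∀ U ∈ 𝓝 (0 : A), ∃ n, ∀ x, v n x < 1 → x ∈ U) ∧
      ∀ s : Seminorm ℂ A, Continuous s → ∃ n, ∀ x, s x ≤ v n x := by
  have : TopologicalSpace.MetrizableSpace A := IsFrechet.metr
  obtain ⟨V, hV⟩ := (𝓝 (0 : A)).exists_antitone_basis
  have h1 : ∀ n, ∃ v : Seminorm ℂ A, Continuous v ∧ ∀ x, v x < 1 → x ∈ V n := fun n =>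
    exists_seminorm (hV.1.mem_of_mem trivial)
  choose v hv hvV using h1
  have h2 : ∀ U ∈ 𝓝 (0 : A), ∃ n, ∀ x, v n x < 1 → x ∈ U := by
    intro U hU
    obtain ⟨n, -, hn⟩ := hV.1.mem_iff.1 hU
    exact ⟨n, fun x hx => hn (hvV n x hx)⟩
  refine ⟨v, hv, h2, fun s hs => ?_⟩
  have h3 : {x : A | s x < 1} ∈ 𝓝 (0 : A) := by
    refine (isOpen_lt hs continuous_const).mem_nhds ?_
    simp
  obtain ⟨n, hn⟩ := h2 _ h3
  exact ⟨n, le_of_ball s (v n) hn⟩

private lemma exists_lim (A : Type) [AddCommGroup A] [Module ℂ A] [TopologicalSpace A]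
    [IsFrechet A] (Z : ℕ → A)
    (h : ∀ U ∈ 𝓝 (0 : A), ∃ N, ∀ n ≥ N, Z n - Z N ∈ U) : ∃ a, Tendsto Z atTop (𝓝 a) := by
  let _ : UniformSpace A := IsTopologicalAddGroup.rightUniformSpace A
  have : CompleteSpace A := IsFrechet.complete
  have : IsUniformAddGroup A := isUniformAddGroup_of_addCommGroup
  refine cauchySeq_tendsto_of_complete ?_
  rw [cauchySeq_iff_tendsto, uniformity_eq_comap_nhds_zero, tendsto_comap_iff]
  intro U hU
  have h1 : Tendsto (fun p : A × A => p.1 - p.2) (𝓝 0 ×ˢ 𝓝 0) (𝓝 0) := by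
    rw [← nhds_prod_eq]
    have : ContinuousAt (fun p : A × A => p.1 - p.2) (0, 0) := by fun_prop
    simpa [ContinuousAt] using this
  have h2 := h1 hU
  rw [Filter.mem_map, Filter.mem_prod_self_iff] at h2
  obtain ⟨V, hV, hVU⟩ := h2
  obtain ⟨N, hN⟩ := h V hV
  rw [Filter.mem_map, ← prod_atTop_atTop_eq, Filter.mem_prod_self_iff]
  refine ⟨Set.Ici N, Ici_mem_atTop N, ?_⟩
  rintro ⟨m, n⟩ ⟨hm, hn⟩
  have h3 := hVU (Set.mk_mem_prod (hN n hn) (hN m hm))
  simpa using h3

theorem hML : StML := by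
  intro A _ _ _ _ _ H1 H2 p hp
  obtain ⟨v, hvc, hvU, hvs⟩ := exists_fam A
  have H2' : ∀ p : Seminorm ℂ A, Good p → ∃ q : Seminorm ℂ A, Continuous q ∧
      ∀ r : Seminorm ℂ A, Good r → ∀ ε : ℝ, 0 < ε → ∃ y, p (1 - y) ≤ ε ∧
        ∃ C : ℝ, 0 ≤ C ∧ ∀ b, r (y * b) ≤ C * q b := by
    intro p hp
    obtain ⟨q, hq, hqr⟩ := H2 p hp
    exact ⟨q, hq, fun r hr ε hε => improve p q r hp hr (hqr r hr) ε hε⟩
  choose! up hup using H1
  choose! Q hQ using H2'
  -- the seminorms
  let P : ℕ → Seminorm ℂ A := fun n => Nat.rec p (fun k s => up (s + v k)) n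
  have hP0 : P 0 = p := rfl
  have hPs : ∀ k, P (k + 1) = up (P k + v k) := fun k => rfl
  have hPg : ∀ k, Good (P k) := by
    intro k
    induction k with
    | zero => exact hp
    | succ k ih =>
      rw [hPs]
      exact (hup _ (ih.1.add (hvc k))).1
  have hPle : ∀ k x, P k x + v k x ≤ P (k + 1) x := by
    intro k x
    rw [hPs]
    exact (hup (P k + v k) ((hPg k).1.add (hvc k))).2 x
  have hPle1 : ∀ k x, P k x ≤ P (k + 1) x := fun k x => by
    have := hPle k x
    have h3 := apply_nonneg (v k) x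
    linarith
  have hPle2 : ∀ k x, v k x ≤ P (k + 1) x := fun k x => by
    have := hPle k x
    have h3 := apply_nonneg (P k) x
    linarith
  have hPmono : ∀ k l, k ≤ l → ∀ x, P k x ≤ P l x := by
    intro k l hkl x
    induction hkl with
    | refl => exact le_rfl
    | step _ ih => exact ih.trans (hPle1 _ x)
  have hQc : ∀ k, Continuous (Q (P k)) := fun k => (hQ _ (hPg k)).1
  let R : ℕ → Seminorm ℂ A := fun k => up (Q (P k) + P k)
  have hRg : ∀ k, Good (R k) := fun k => (hup _ ((hQc k).add (hPg k).1)).1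
  have hRle : ∀ k x, Q (P k) x + P k x ≤ R k x := fun k x =>
    (hup (Q (P k) + P k) ((hQc k).add (hPg k).1)).2 x
  have hRQ : ∀ k x, Q (P k) x ≤ R k x := fun k x => by
    have := hRle k x
    have h3 := apply_nonneg (P k) x
    linarith
  have hRP : ∀ k x, P k x ≤ R k x := fun k x => by
    have := hRle k x
    have h3 := apply_nonneg (Q (P k)) x
    linarith
  -- the recursion
  have step : ∀ (n : ℕ) (s : A × ℝ), (0 ≤ s.2 ∧ ∀ b, R (n + 1) (s.1 * b) ≤ s.2 * Q p b) →
      ∃ t : A × ℝ, (0 ≤ t.2 ∧ ∀ b, R (n + 2) (t.1 * b) ≤ t.2 * Q p b) ∧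
        (∀ b, P (n + 1) ((t.1 - s.1) * b) ≤ (1 / 2) ^ (n + 4) * Q p b) ∧
        P (n + 1) (t.1 - s.1) ≤ (1 / 2) ^ (n + 4) := by
    rintro n ⟨z, D⟩ ⟨hD, hz⟩
    dsimp only at hD hz ⊢
    have hpz := apply_nonneg (P (n + 1)) z
    have hden : 0 < 1 + D + P (n + 1) z := by linarith
    obtain ⟨y, hy, C, hC, hyb⟩ := (hQ _ (hPg (n + 1))).2 (R (n + 2)) (hRg (n + 2))
      ((1 / 2) ^ (n + 4) / (1 + D + P (n + 1) z)) (by positivity)
    rw [le_div_iff₀ hden] at hy
    have hpy := apply_nonneg (P (n + 1)) (1 - y)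
    have e1 : P (n + 1) (y - 1) = P (n + 1) (1 - y) := map_sub_rev _ _ _
    refine ⟨(y * z, C * D), ⟨mul_nonneg hC hD, fun b => ?_⟩, fun b => ?_, ?_⟩
    · rw [mul_assoc]
      calc R (n + 2) (y * (z * b)) ≤ C * Q (P (n + 1)) (z * b) := hyb _
        _ ≤ C * (D * Q p b) :=
            mul_le_mul_of_nonneg_left ((hRQ (n + 1) (z * b)).trans (hz b)) hC
        _ = C * D * Q p b := by ring
    · have e2 : (y * z - z) * b = (y - 1) * (z * b) := by ring
      have hb := apply_nonneg (Q p) b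
      rw [e2]
      calc P (n + 1) ((y - 1) * (z * b)) ≤ P (n + 1) (y - 1) * P (n + 1) (z * b) :=
            (hPg (n + 1)).2 (y - 1) (z * b)
        _ ≤ P (n + 1) (1 - y) * (D * Q p b) := by
            rw [e1]
            exact mul_le_mul_of_nonneg_left ((hRP (n + 1) (z * b)).trans (hz b)) hpy
        _ = (P (n + 1) (1 - y) * D) * Q p b := by ring
        _ ≤ (1 / 2) ^ (n + 4) * Q p b := by
            refine mul_le_mul_of_nonneg_right ?_ hb
            nlinarith
    · have e2 : y * z - z = (y - 1) * z := by ring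
      rw [e2]
      refine ((hPg (n + 1)).2 (y - 1) z).trans ?_
      rw [e1]
      nlinarith
  obtain ⟨z0, hz0, D0, hD0, hz0b⟩ := (hQ _ hp).2 (R 1) (hRg 1) (1 / 4) (by norm_num)
  choose! nx hnx using step
  let S : ℕ → A × ℝ := fun n => Nat.rec (z0, D0) (fun k s => nx k s) n
  have hS0 : S 0 = (z0, D0) := rfl
  have hSs : ∀ n, S (n + 1) = nx n (S n) := fun n => rfl
  have hSP : ∀ n, 0 ≤ (S n).2 ∧ ∀ b, R (n + 1) ((S n).1 * b) ≤ (S n).2 * Q p b := by
    intro n
    induction n with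
    | zero => exact ⟨hD0, hz0b⟩
    | succ n ih =>
      rw [hSs]
      exact (hnx n (S n) ih).1
  have hSd : ∀ n b, P (n + 1) (((S (n + 1)).1 - (S n).1) * b) ≤ (1 / 2) ^ (n + 4) * Q p b := by
    intro n b
    rw [hSs]
    exact (hnx n (S n) (hSP n)).2.1 b
  have hSe : ∀ n, P (n + 1) ((S (n + 1)).1 - (S n).1) ≤ (1 / 2) ^ (n + 4) := by
    intro n
    rw [hSs]
    exact (hnx n (S n) (hSP n)).2.2
  have hcau : ∀ m n, m ≤ n → ∀ i, P (m + 1) ((S (n + i)).1 - (S n).1) ≤
      (1 / 2) ^ n * (1 - (1 / 2) ^ i) := by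
    intro m n hmn i
    induction i with
    | zero => simp
    | succ i ih =>
      have e1 : (S (n + (i + 1))).1 - (S n).1 =
          ((S (n + i + 1)).1 - (S (n + i)).1) + ((S (n + i)).1 - (S n).1) := by
        rw [← add_assoc]
        abel
      rw [e1]
      have h1 := map_add_le_add (P (m + 1)) ((S (n + i + 1)).1 - (S (n + i)).1)
        ((S (n + i)).1 - (S n).1)
      have h2 := (hPmono (m + 1) (n + i + 1) (by omega)
        ((S (n + i + 1)).1 - (S (n + i)).1)).trans (hSe (n + i))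
      have h3 : (1 / 2 : ℝ) ^ (n + i + 4) = (1 / 2) ^ n * (1 / 2) ^ i * (1 / 16) := by
        rw [pow_add, pow_add]
        norm_num
      have h4 : (0 : ℝ) < (1 / 2) ^ n * (1 / 2) ^ i := by positivity
      rw [h3] at h2
      rw [pow_succ (1 / 2 : ℝ) i]
      linarith
  obtain ⟨a, ha⟩ := exists_lim A (fun n => (S n).1) (by
    intro U hU
    obtain ⟨m, hm⟩ := hvU U hU
    refine ⟨m + 1, fun n hn => hm _ ?_⟩
    obtain ⟨i, rfl⟩ := Nat.exists_eq_add_of_le hn
    have h1 := (hPle2 m _).trans (hcau m (m + 1) (by omega) i)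
    have h2 : (1 / 2 : ℝ) ^ (m + 1) ≤ 1 / 2 := by
      rw [pow_succ]
      have : (1 / 2 : ℝ) ^ m ≤ 1 := pow_le_one₀ (by norm_num) (by norm_num)
      linarith
    have h3 : (0 : ℝ) < (1 / 2) ^ i := by positivity
    have h4 : (0 : ℝ) < (1 / 2) ^ (m + 1) := by positivity
    refine lt_of_le_of_lt h1 ?_
    nlinarith)
  have hbd : ∀ j i b, P (j + 1) ((S (j + i)).1 * b) ≤
      ((S j).2 + 1 - (1 / 2) ^ i) * Q p b := by
    intro j i b
    induction i with
    | zero =>
      have h1 := (hRP (j + 1) _).trans ((hSP j).2 b)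
      simpa using h1
    | succ i ih =>
      have e1 : (S (j + (i + 1))).1 * b =
          ((S (j + i + 1)).1 - (S (j + i)).1) * b + (S (j + i)).1 * b := by
        rw [← add_assoc]
        ring
      rw [e1]
      have h1 := map_add_le_add (P (j + 1)) (((S (j + i + 1)).1 - (S (j + i)).1) * b)
        ((S (j + i)).1 * b)
      have h2 := (hPmono (j + 1) (j + i + 1) (by omega)
        (((S (j + i + 1)).1 - (S (j + i)).1) * b)).trans (hSd (j + i) b)
      have hb := apply_nonneg (Q p) b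
      have h3 : (1 / 2 : ℝ) ^ (j + i + 4) ≤ (1 / 2) ^ i * (1 / 2) := by
        have h5 : (1 / 2 : ℝ) ^ (j + i + 4) = (1 / 2) ^ j * ((1 / 2) ^ i * (1 / 16)) := by
          rw [pow_add, pow_add]
          norm_num
          ring
        have h6 : (1 / 2 : ℝ) ^ j ≤ 1 := pow_le_one₀ (by norm_num) (by norm_num)
        have h7 : (0 : ℝ) < (1 / 2) ^ i := by positivity
        rw [h5]
        nlinarith
      have h4 := mul_le_mul_of_nonneg_right h3 hb
      rw [pow_succ (1 / 2 : ℝ) i]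
      nlinarith
  have hlimb : ∀ j b, P (j + 1) (a * b) ≤ ((S j).2 + 1) * Q p b := by
    intro j b
    have hb := apply_nonneg (Q p) b
    have h1 : Tendsto (fun n => P (j + 1) ((S n).1 * b)) atTop (𝓝 (P (j + 1) (a * b))) :=
      ((hPg (j + 1)).1.tendsto _).comp (ha.mul_const b)
    refine le_of_tendsto h1 ?_
    filter_upwards [eventually_ge_atTop j] with n hn
    obtain ⟨i, rfl⟩ := Nat.exists_eq_add_of_le hn
    refine (hbd j i b).trans (mul_le_mul_of_nonneg_right ?_ hb)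
    have h3 : (0 : ℝ) < (1 / 2) ^ i := by positivity
    linarith
  refine ⟨a, ⟨Q p, (hQ _ hp).1, fun r hr => ?_⟩, ?_⟩
  · obtain ⟨n, hn⟩ := hvs r hr
    exact ⟨(S n).2 + 1, fun b => (hn _).trans ((hPle2 n _).trans (hlimb n b))⟩
  · have h1 : Tendsto (fun n => p (1 - (S n).1)) atTop (𝓝 (p (1 - a))) :=
      (hp.1.tendsto _).comp (ha.const_sub 1)
    have h2 : ∀ n, p (1 - (S n).1) ≤ 3 / 8 - 1 / 8 * (1 / 2) ^ n := by
      intro n
      induction n with
      | zero =>
        refine hz0.trans ?_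
        norm_num
      | succ n ih =>
        have e1 : 1 - (S (n + 1)).1 = (1 - (S n).1) - ((S (n + 1)).1 - (S n).1) := by abel
        rw [e1]
        have h3 := map_sub_le_add p (1 - (S n).1) ((S (n + 1)).1 - (S n).1)
        have h4 := (hPmono 0 (n + 1) (by omega) ((S (n + 1)).1 - (S n).1)).trans (hSe n)
        rw [hP0] at h4
        have h5 : (1 / 2 : ℝ) ^ (n + 4) = (1 / 2) ^ n * (1 / 16) := by
          rw [pow_add]
          norm_num
        rw [h5] at h4
        rw [pow_succ]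
        linarith
    have h3 : p (1 - a) ≤ 3 / 8 := by
      refine le_of_tendsto h1 (Eventually.of_forall fun n => (h2 n).trans ?_)
      have : (0 : ℝ) < (1 / 2) ^ n := by positivity
      linarith
    linarith

end Pool.Agent.Helper67.SL
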