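import Pool.Agent.Helper20.FS.St3

/-!
# Project SM, module MB (Mittag-Leffler in the completions)
-/

open Topology Filter

namespace Pool.Agent.Helper67.SL

open Pool.Agent.Helper20.FA Pool.Agent.Helper20.FR Pool.Agent.Helper20.FS

attribute [local instance] IsFrechet.tag IsFrechet.csm IsFrechet.lcs

namespace MB

/-- From a bound on the unit balls to a bound of seminorms. -/
private lemma le_of_ball {E : Type} [AddCommGroup E] [Module ℂ E] (s v : Seminorm ℂ E)
    (h : ∀ x, v x < 1 → s x < 1) (x : E) : s x ≤ v x := by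
  refine le_of_forall_pos_le_add fun ε hε => ?_
  have hv := apply_nonneg v x
  have ht : 0 < v x + ε := by linarith
  have h4 : v ((((v x + ε)⁻¹ : ℝ) : ℂ) • x) < 1 := by
    rw [map_smul_eq_mul, Complex.norm_real, Real.norm_of_nonneg (by positivity),
      inv_mul_lt_iff₀ ht]
    linarith
  have h5 := h _ h4
  rw [map_smul_eq_mul, Complex.norm_real, Real.norm_of_nonneg (by positivity),
      inv_mul_lt_iff₀ ht, mul_one] at h5
  exact h5.le

/-- A countable family of seminorms. -/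
private lemma exists_fam (A : Type) [AddCommGroup A] [Module ℂ A] [TopologicalSpace A]
    [IsFrechet A] : ∃ v : ℕ → Seminorm ℂ A, (∀ n, Continuous (v n)) ∧
      (∀ U ∈ 𝓝 (0 : A), ∃ n, ∀ x, v n x < 1 → x ∈ U) ∧
      ∀ s : Seminorm ℂ A, Continuous s → ∃ n, ∀ x, s x ≤ v n x := by
  have : TopologicalSpace.MetrizableSpace A := IsFrechet.metr
  obtain ⟨V, hV⟩ := (𝓝 (0 : A)).exists_antitone_basis
  have h1 : ∀ n, ∃ v : Seminorm ℂ A, Continuous v ∧ ∀ x, v x < 1 → x ∈ V n := fun n =>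
    exists_seminorm (hV.1.mem_of_mem trivial)
  choose v hv hvV using h1
  have h2 : ∀ U ∈ 𝓝 (0 : A), ∃ n, ∀ x, v n x < 1 → x ∈ U := by
    intro U hU
    obtain ⟨n, -, hn⟩ := hV.1.mem_iff.1 hU
    exact ⟨n, fun x hx => hn (hvV n x hx)⟩
  refine ⟨v, hv, h2, fun s hs => ?_⟩
  have h3 : {x : A | s x < 1} ∈ 𝓝 (0 : A) := by
    refine (isOpen_lt hs continuous_const).mem_nhds ?_
    simp
  obtain ⟨n, hn⟩ := h2 _ h3
  exact ⟨n, le_of_ball s (v n) hn⟩

private lemma exists_lim (A : Type) [AddCommGroup A] [Module ℂ A] [TopologicalSpace A]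
    [IsFrechet A] (Z : ℕ → A)
    (h : ∀ U ∈ 𝓝 (0 : A), ∃ N, ∀ n ≥ N, Z n - Z N ∈ U) : ∃ a, Tendsto Z atTop (𝓝 a) := by
  let _ : UniformSpace A := IsTopologicalAddGroup.rightUniformSpace A
  have : CompleteSpace A := IsFrechet.complete
  have : IsUniformAddGroup A := isUniformAddGroup_of_addCommGroup
  refine cauchySeq_tendsto_of_complete ?_
  rw [cauchySeq_iff_tendsto, uniformity_eq_comap_nhds_zero, tendsto_comap_iff]
  intro U hU
  have h1 : Tendsto (fun p : A × A => p.1 - p.2) (𝓝 0 ×ˢ 𝓝 0) (𝓝 0) := by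
    rw [← nhds_prod_eq]
    have : ContinuousAt (fun p : A × A => p.1 - p.2) (0, 0) := by fun_prop
    simpa [ContinuousAt] using this
  have h2 := h1 hU
  rw [Filter.mem_map, Filter.mem_prod_self_iff] at h2
  obtain ⟨V, hV, hVU⟩ := h2
  obtain ⟨N, hN⟩ := h V hV
  rw [Filter.mem_map, ← prod_atTop_atTop_eq, Filter.mem_prod_self_iff]
  refine ⟨Set.Ici N, Ici_mem_atTop N, ?_⟩
  rintro ⟨m, n⟩ ⟨hm, hn⟩
  have h3 := hVU (Set.mk_mem_prod (hN n hn) (hN m hm))
  simpa using h3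


private lemma lim0 {X Y K : ℝ} (h : ∀ η : ℝ, 0 < η → X ≤ Y + η * K) : X ≤ Y := by
  refine le_of_forall_pos_le_add fun ε hε => ?_
  have h1 : 0 < 1 + |K| := by positivity
  refine (h (ε / (1 + |K|)) (by positivity)).trans ?_
  have h2 : ε / (1 + |K|) * K ≤ ε := by
    rw [div_mul_eq_mul_div, div_le_iff₀ h1]
    have := le_abs_self K
    nlinarith
  linarith

section alg

variable {A : Type} [CommRing A] [Algebra ℂ A]

/-- `E ε` is a set of `ε`-approximations of an element `z` of the completion of `A` for `r`, with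
`‖z b‖ ≤ D q b`. -/
private def Rep (q r : Seminorm ℂ A) (D : ℝ) (E : ℝ → A → Prop) : Prop :=
  0 ≤ D ∧ (∀ ε : ℝ, 0 < ε → ∃ u, E ε u) ∧
  (∀ ε δ : ℝ, 0 < ε → 0 < δ → ∀ u v, E ε u → E δ v → r (u - v) ≤ ε + δ) ∧
  (∀ ε : ℝ, 0 < ε → ∀ u, E ε u → ∀ b, r (u * b) ≤ D * q b + ε * r b)

/-- Approximations of the product. -/
private def Pr (r' : Seminorm ℂ A) (C : ℝ) (E F : ℝ → A → Prop) (ε : ℝ) (w : A) : Prop :=
  ∃ (ε₁ ε₂ : ℝ) (u v : A), 0 < ε₁ ∧ 0 < ε₂ ∧ ε₁ ≤ 1 ∧ ε₁ ≤ ε ∧ C * ε₁ + ε₂ * r' u ≤ ε ∧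
    E ε₁ u ∧ F ε₂ v ∧ w = v * u

private lemma Pr_rep {q0 q r r' : Seminorm ℂ A} {D C : ℝ} {E F : ℝ → A → Prop}
    (hm : ∀ a b, r' (a * b) ≤ r' a * r' b) (hqr : ∀ x, q x ≤ r x) (hrr : ∀ x, r x ≤ r' x)
    (hE : Rep q0 r D E) (hF : Rep q r' C F) : Rep q0 r' (C * D) (Pr r' C E F) := by
  obtain ⟨hD, E1, E2, E3⟩ := hE
  obtain ⟨hC, F1, F2, F3⟩ := hF
  refine ⟨mul_nonneg hC hD, fun ε hε => ?_, ?_, ?_⟩
  · obtain ⟨u, hu⟩ := E1 (min (min 1 ε) (ε / 2 / (1 + C))) (by positivity)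
    have hru := apply_nonneg r' u
    obtain ⟨v, hv⟩ := F1 (ε / 2 / (1 + r' u)) (by positivity)
    refine ⟨v * u, _, _, u, v, by positivity, by positivity,
      (min_le_left _ _).trans (min_le_left _ _), (min_le_left _ _).trans (min_le_right _ _), ?_,
      hu, hv, rfl⟩
    have h1 : C * min (min 1 ε) (ε / 2 / (1 + C)) ≤ ε / 2 := by
      have h3 : min (min 1 ε) (ε / 2 / (1 + C)) ≤ ε / 2 / (1 + C) := min_le_right _ _
      have h4 : C * min (min 1 ε) (ε / 2 / (1 + C)) ≤ C * (ε / 2 / (1 + C)) :=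
        mul_le_mul_of_nonneg_left h3 hC
      refine h4.trans ?_
      rw [mul_div_assoc', div_le_iff₀ (by linarith)]
      nlinarith
    have h2 : ε / 2 / (1 + r' u) * r' u ≤ ε / 2 := by
      rw [div_mul_eq_mul_div, div_le_iff₀ (by linarith)]
      nlinarith
    linarith
  · rintro ε δ hε hδ _ _ ⟨ε₁, ε₂, u, v, h1, h2, h3, h4, h5, hu, hv, rfl⟩
      ⟨δ₁, δ₂, u', v', k1, k2, k3, k4, k5, hu', hv', rfl⟩
    refine lim0 (K := r' u + r' (u - u') + r' u') fun η hη => ?_
    obtain ⟨y, hy⟩ := F1 η hη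
    have e1 : v * u - v' * u' = (v - y) * u + (y * (u - u') + (y - v') * u') := by ring
    rw [e1]
    have a1 := map_add_le_add r' ((v - y) * u) (y * (u - u') + (y - v') * u')
    have a2 := map_add_le_add r' (y * (u - u')) ((y - v') * u')
    have b1 := hm (v - y) u
    have b2 := F3 η hη y hy (u - u')
    have b3 := hm (y - v') u'
    have c1 := mul_le_mul_of_nonneg_right (F2 _ _ h2 hη v y hv hy) (apply_nonneg r' u)
    have c3 := mul_le_mul_of_nonneg_right (F2 _ _ hη k2 y v' hy hv') (apply_nonneg r' u')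
    have c2 := mul_le_mul_of_nonneg_left ((hqr (u - u')).trans (E2 _ _ h1 k1 u u' hu hu')) hC
    linarith
  · rintro ε hε _ ⟨ε₁, ε₂, u, v, h1, h2, h3, h4, h5, hu, hv, rfl⟩ b
    refine lim0 (K := r' u * r' b + r' (u * b)) fun η hη => ?_
    obtain ⟨y, hy⟩ := F1 η hη
    have e1 : v * u * b = (v - y) * (u * b) + y * (u * b) := by ring
    rw [e1]
    have a1 := map_add_le_add r' ((v - y) * (u * b)) (y * (u * b))
    have b1 := hm (v - y) (u * b)
    have b2 := hm u b
    have b3 := F3 η hη y hy (u * b)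
    have hb := apply_nonneg r' b
    have c1 := mul_le_mul_of_nonneg_left b2 (apply_nonneg r' (v - y))
    have c2 := mul_le_mul_of_nonneg_right (F2 _ _ h2 hη v y hv hy)
      (mul_nonneg (apply_nonneg r' u) hb)
    have c3 := mul_le_mul_of_nonneg_left ((hqr (u * b)).trans (E3 _ h1 u hu b)) hC
    have c4 := mul_le_mul_of_nonneg_left (mul_le_mul_of_nonneg_left (hrr b) h1.le) hC
    have c5 := mul_le_mul_of_nonneg_right h5 hb
    nlinarith

private lemma pow_bd (p : Seminorm ℂ A) (hm : ∀ a b, p (a * b) ≤ p a * p b) (x : A) (n : ℕ) :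
    p (x ^ (n + 1)) ≤ p x ^ (n + 1) := by
  induction n with
  | zero => simp
  | succ n ih =>
    rw [pow_succ, pow_succ (p x)]
    exact (hm _ _).trans (mul_le_mul_of_nonneg_right ih (apply_nonneg p x))

private lemma pow_bd1 (p : Seminorm ℂ A) (hm : ∀ a b, p (a * b) ≤ p a * p b) (x : A) {B : ℝ}
    (hx : p x ≤ B) (n : ℕ) : p (x ^ n) ≤ p 1 * B ^ n := by
  induction n with
  | zero => simp
  | succ n ih =>
    rw [pow_succ, pow_succ, ← mul_assoc]
    have hB : 0 ≤ B := (apply_nonneg p x).trans hx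
    exact (hm _ _).trans (mul_le_mul ih hx (apply_nonneg p x)
      (mul_nonneg (apply_nonneg p 1) (by positivity)))

private lemma pow_diff (p : Seminorm ℂ A) (hm : ∀ a b, p (a * b) ≤ p a * p b) {B : ℝ}
    (hB : 0 ≤ B) (n : ℕ) : ∃ M : ℝ, 0 ≤ M ∧ ∀ u v : A, p u ≤ B → p v ≤ B →
      p (u ^ n - v ^ n) ≤ M * p (u - v) := by
  induction n with
  | zero => exact ⟨0, le_rfl, fun u v _ _ => by simp⟩
  | succ n ih =>
    obtain ⟨M, hM, h⟩ := ih
    have h1 := apply_nonneg p (1 : A)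
    refine ⟨p 1 * B ^ n + M * B, by positivity, fun u v hu hv => ?_⟩
    have e1 : u ^ (n + 1) - v ^ (n + 1) = u ^ n * (u - v) + (u ^ n - v ^ n) * v := by ring
    rw [e1]
    have a1 := map_add_le_add p (u ^ n * (u - v)) ((u ^ n - v ^ n) * v)
    have a2 := (hm (u ^ n) (u - v)).trans
      (mul_le_mul_of_nonneg_right (pow_bd1 p hm u hu n) (apply_nonneg p (u - v)))
    have huv := apply_nonneg p (u - v)
    have a3 : p ((u ^ n - v ^ n) * v) ≤ M * p (u - v) * B :=
      (hm _ _).trans (mul_le_mul (h u v hu hv) hv (apply_nonneg p v) (by positivity))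
    nlinarith

private lemma cau_bd (r : Seminorm ℂ A) (x : ℕ → A)
    (h : ∀ k, r (x (k + 1) - x k) ≤ (1 / 2) ^ k) (k i : ℕ) :
    r (x (k + i) - x k) ≤ 2 * (1 / 2) ^ k * (1 - (1 / 2) ^ i) := by
  induction i with
  | zero => simp
  | succ i ih =>
    have e1 : x (k + (i + 1)) - x k = (x (k + i + 1) - x (k + i)) + (x (k + i) - x k) := by
      rw [← add_assoc]
      abel
    rw [e1]
    have h1 := map_add_le_add r (x (k + i + 1) - x (k + i)) (x (k + i) - x k)
    have h2 := h (k + i)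
    rw [pow_add] at h2
    rw [pow_succ (1 / 2 : ℝ) i]
    nlinarith

private lemma cau_bd2 (r : Seminorm ℂ A) (x : ℕ → A)
    (h : ∀ k, r (x (k + 1) - x k) ≤ (1 / 2) ^ k) {k l : ℕ} (hkl : k ≤ l) :
    r (x l - x k) ≤ 2 * (1 / 2) ^ k := by
  obtain ⟨i, rfl⟩ := Nat.exists_eq_add_of_le hkl
  refine (cau_bd r x h k i).trans ?_
  have h1 : (0 : ℝ) < (1 / 2) ^ i := by positivity
  have h2 : (0 : ℝ) < (1 / 2) ^ k := by positivity
  nlinarith

private lemma improve (p q r : Seminorm ℂ A) (hp : ∀ a b, p (a * b) ≤ p a * p b)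
    (hr : ∀ a b, r (a * b) ≤ r a * r b)
    (h : ∃ (x : ℕ → A) (C : ℝ), QB q r C x ∧ ∀ k, p (1 - x k) < 1 / 2) (θ : ℝ) (hθ : 0 < θ) :
    ∃ (F : ℝ → A → Prop) (C : ℝ), Rep q r C F ∧ ∀ ε : ℝ, 0 < ε → ∀ v, F ε v → p (1 - v) ≤ θ := by
  obtain ⟨x, C, ⟨hx1, hx2⟩, hx3⟩ := h
  obtain ⟨n, hn⟩ := exists_pow_lt_of_lt_one hθ (by norm_num : (1 / 2 : ℝ) < 1)
  have hr1 := apply_nonneg r (1 : A)
  have hr0 := apply_nonneg r (x 0)
  set B : ℝ := r 1 + (r (x 0) + 2) with hB
  have hB0 : 0 ≤ B := by positivity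
  have hxB : ∀ k, r (1 - x k) ≤ B := by
    intro k
    have h1 := map_sub_le_add r 1 (x k)
    have h2 := cau_bd2 r x hx1 (Nat.zero_le k)
    have e1 : x k = (x k - x 0) + x 0 := by abel
    have h3 := map_add_le_add r (x k - x 0) (x 0)
    rw [← e1] at h3
    norm_num at h2
    linarith
  set M : ℝ := ∑ i ∈ Finset.range (n + 1), r 1 * B ^ i with hM
  have hM0 : 0 ≤ M := Finset.sum_nonneg fun i _ => by positivity
  have hsM : ∀ k, r (∑ i ∈ Finset.range (n + 1), (1 - x k) ^ i) ≤ M := by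
    intro k
    refine (Finset.le_sum_of_subadditive r (map_zero r).le (map_add_le_add r) _ _).trans ?_
    exact Finset.sum_le_sum fun i _ => pow_bd1 r hr _ (hxB k) i
  obtain ⟨M', hM', hd⟩ := pow_diff r hr hB0 (n + 1)
  have e0 : ∀ k, 1 - (1 - x k) ^ (n + 1) =
      (∑ i ∈ Finset.range (n + 1), (1 - x k) ^ i) * x k := by
    intro k
    have h2 := geom_sum_mul_neg (1 - x k) (n + 1)
    rw [sub_sub_cancel] at h2
    exact h2.symm
  have hdiff : ∀ k l, k ≤ l → r ((1 - (1 - x k) ^ (n + 1)) - (1 - (1 - x l) ^ (n + 1))) ≤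
      M' * (2 * (1 / 2) ^ k) := by
    intro k l hkl
    have e1 : (1 - (1 - x k) ^ (n + 1)) - (1 - (1 - x l) ^ (n + 1)) =
        (1 - x l) ^ (n + 1) - (1 - x k) ^ (n + 1) := by ring
    rw [e1]
    refine (hd _ _ (hxB l) (hxB k)).trans (mul_le_mul_of_nonneg_left ?_ hM')
    have e2 : (1 - x l) - (1 - x k) = x k - x l := by ring
    rw [e2, map_sub_rev]
    exact cau_bd2 r x hx1 hkl
  refine ⟨fun ε v => ∃ k, (M + M' * 2) * (1 / 2) ^ k ≤ ε ∧ v = 1 - (1 - x k) ^ (n + 1),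
    M * max C 0, ⟨mul_nonneg hM0 (le_max_right _ _), fun ε hε => ?_, ?_, ?_⟩, ?_⟩
  · have h1 : 0 < 1 + (M + M' * 2) := by positivity
    obtain ⟨k, hk⟩ := exists_pow_lt_of_lt_one (div_pos hε h1) (by norm_num : (1 / 2 : ℝ) < 1)
    refine ⟨_, k, ?_, rfl⟩
    rw [lt_div_iff₀ h1] at hk
    have h2 : (0 : ℝ) < (1 / 2) ^ k := by positivity
    nlinarith
  · rintro ε δ hε hδ _ _ ⟨k, hk, rfl⟩ ⟨l, hl, rfl⟩
    rcases le_total k l with hkl | hkl
    · have h1 := hdiff k l hkl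
      have h2 : (0 : ℝ) < (1 / 2) ^ k := by positivity
      nlinarith
    · have h1 := hdiff l k hkl
      rw [map_sub_rev]
      have h2 : (0 : ℝ) < (1 / 2) ^ l := by positivity
      nlinarith
  · rintro ε hε _ ⟨k, hk, rfl⟩ b
    rw [e0, mul_assoc]
    have hqb := apply_nonneg q b
    have hrb := apply_nonneg r b
    have h2 : (0 : ℝ) < (1 / 2) ^ k := by positivity
    have h3 : r (x k * b) ≤ max C 0 * q b + (1 / 2) ^ k * r b :=
      (hx2 k b).trans (by
        have := mul_le_mul_of_nonneg_right (le_max_left C 0) hqb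
        linarith)
    have h4 := (hr (∑ i ∈ Finset.range (n + 1), (1 - x k) ^ i) (x k * b)).trans
      (mul_le_mul (hsM k) h3 (apply_nonneg r _) hM0)
    refine h4.trans ?_
    have h5 : M * (1 / 2) ^ k ≤ ε := by nlinarith
    have h6 := mul_le_mul_of_nonneg_right h5 hrb
    linarith
  · rintro ε hε _ ⟨k, hk, rfl⟩
    rw [sub_sub_cancel]
    refine (pow_bd p hp _ n).trans ?_
    have h1 : p (1 - x k) ^ (n + 1) ≤ (1 / 2 : ℝ) ^ (n + 1) :=
      pow_le_pow_left₀ (apply_nonneg _ _) (hx3 k).le _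
    have h2 : (1 / 2 : ℝ) ^ (n + 1) ≤ (1 / 2 : ℝ) ^ n :=
      pow_le_pow_of_le_one (by norm_num) (by norm_num) (Nat.le_succ n)
    linarith

end alg

theorem hMB' : StMB := by
  intro A _ _ _ _ _ H1 H2 p hp
  obtain ⟨v, hvc, hvU, hvs⟩ := exists_fam A
  have H2' : ∀ p : Seminorm ℂ A, Good p → ∃ q : Seminorm ℂ A, Continuous q ∧
      ∀ r : Seminorm ℂ A, Good r → ∀ θ : ℝ, 0 < θ → ∃ (F : ℝ → A → Prop) (C : ℝ), Rep q r C F ∧
        ∀ ε : ℝ, 0 < ε → ∀ v, F ε v → p (1 - v) ≤ θ := by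
    intro p hp
    obtain ⟨q, hq, hqr⟩ := H2 p hp
    exact ⟨q, hq, fun r hr θ hθ => improve p q r hp.2 hr.2 (hqr r hr) θ hθ⟩
  choose! up hup using H1
  choose! Q hQ using H2'
  -- the seminorms
  let P : ℕ → Seminorm ℂ A := fun n => Nat.rec p (fun k s => up (s + v k)) n
  have hP0 : P 0 = p := rfl
  have hPs : ∀ k, P (k + 1) = up (P k + v k) := fun k => rfl
  have hPg : ∀ k, Good (P k) := by
    intro k
    induction k with
    | zero => exact hp
    | succ k ih =>
      rw [hPs]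
      exact (hup _ (ih.1.add (hvc k))).1
  have hPle : ∀ k x, P k x + v k x ≤ P (k + 1) x := by
    intro k x
    rw [hPs]
    exact (hup (P k + v k) ((hPg k).1.add (hvc k))).2 x
  have hPle1 : ∀ k x, P k x ≤ P (k + 1) x := fun k x => by
    have := hPle k x
    have h3 := apply_nonneg (v k) x
    linarith
  have hPle2 : ∀ k x, v k x ≤ P (k + 1) x := fun k x => by
    have := hPle k x
    have h3 := apply_nonneg (P k) x
    linarith
  have hPmono : ∀ k l, k ≤ l → ∀ x, P k x ≤ P l x := by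
    intro k l hkl x
    induction hkl with
    | refl => exact le_rfl
    | step _ ih => exact ih.trans (hPle1 _ x)
  have hQc : ∀ k, Continuous (Q (P k)) := fun k => (hQ _ (hPg k)).1
  let R : ℕ → Seminorm ℂ A := fun n =>
    Nat.rec (up (Q (P 0) + P 0)) (fun k s => up (Q (P (k + 1)) + P (k + 1) + s)) n
  have hRs : ∀ k, R (k + 1) = up (Q (P (k + 1)) + P (k + 1) + R k) := fun k => rfl
  have hRg : ∀ k, Good (R k) := by
    intro k
    induction k with
    | zero => exact (hup _ ((hQc 0).add (hPg 0).1)).1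
    | succ k ih =>
      rw [hRs]
      exact (hup _ (((hQc (k + 1)).add (hPg (k + 1)).1).add ih.1)).1
  have hRle : ∀ k x, Q (P (k + 1)) x + P (k + 1) x + R k x ≤ R (k + 1) x := by
    intro k x
    rw [hRs]
    exact (hup (Q (P (k + 1)) + P (k + 1) + R k)
      (((hQc (k + 1)).add (hPg (k + 1)).1).add (hRg k).1)).2 x
  have hRQ : ∀ k x, Q (P (k + 1)) x ≤ R (k + 1) x := fun k x => by
    have := hRle k x
    have h3 := apply_nonneg (P (k + 1)) x
    have h4 := apply_nonneg (R k) x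
    linarith
  have hRP : ∀ k x, P (k + 1) x ≤ R (k + 1) x := fun k x => by
    have := hRle k x
    have h3 := apply_nonneg (Q (P (k + 1))) x
    have h4 := apply_nonneg (R k) x
    linarith
  have hRR : ∀ k x, R k x ≤ R (k + 1) x := fun k x => by
    have := hRle k x
    have h3 := apply_nonneg (Q (P (k + 1))) x
    have h4 := apply_nonneg (P (k + 1)) x
    linarith
  -- the recursion
  have step : ∀ (n : ℕ) (s : (ℝ → A → Prop) × ℝ), Rep (Q p) (R (n + 1)) s.2 s.1 →
      ∃ t : (ℝ → A → Prop) × ℝ, Rep (Q p) (R (n + 2)) t.2 t.1 ∧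
        (∀ ε δ : ℝ, 0 < ε → 0 < δ → ∀ w u, t.1 ε w → s.1 δ u →
          P (n + 1) (w - u) ≤ (1 / 2) ^ (n + 4) + ε + δ ∧
          ∀ b, P (n + 1) ((w - u) * b) ≤
            (1 / 2) ^ (n + 4) * Q p b + (2 * ε + δ) * R (n + 1) b) := by
    rintro n ⟨E, D⟩ hE
    dsimp only at hE ⊢
    obtain ⟨u1, hu1⟩ := hE.2.1 1 one_pos
    have hru1 := apply_nonneg (R (n + 1)) u1
    have hD := hE.1
    have hden : 0 < 1 + D + (R (n + 1) u1 + 2) := by linarith
    obtain ⟨F, C, hF, hF4⟩ := (hQ _ (hPg (n + 1))).2 (R (n + 2)) (hRg (n + 2))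
      ((1 / 2) ^ (n + 4) / (1 + D + (R (n + 1) u1 + 2))) (by positivity)
    refine ⟨(Pr (R (n + 2)) C E F, C * D), Pr_rep (hRg (n + 2)).2 (hRQ n) (hRR (n + 1)) hE hF, ?_⟩
    rintro ε δ hε hδ _ u0 ⟨ε₁, ε₂, u, w, h1, h2, h3, h4, h5, hu, hw, rfl⟩ hu0
    have hw1 := hF4 ε₂ h2 w hw
    rw [le_div_iff₀ hden] at hw1
    have hpw := apply_nonneg (P (n + 1)) (1 - w)
    have e1 : P (n + 1) (w - 1) = P (n + 1) (1 - w) := map_sub_rev _ _ _
    have g1 : R (n + 1) (u - u0) ≤ ε₁ + δ := hE.2.2.1 _ _ h1 hδ u u0 hu hu0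
    have g2 : R (n + 1) u ≤ R (n + 1) u1 + 2 := by
      have k1 := hE.2.2.1 _ _ h1 one_pos u u1 hu hu1
      have k2 := map_add_le_add (R (n + 1)) (u - u1) u1
      rw [sub_add_cancel] at k2
      linarith
    have g3 : P (n + 1) (1 - w) ≤ 1 := by
      have k1 : (1 / 2 : ℝ) ^ (n + 4) ≤ 1 := pow_le_one₀ (by norm_num) (by norm_num)
      by_contra hc
      rw [not_le] at hc
      nlinarith
    refine ⟨?_, fun b => ?_⟩
    · have e2 : w * u - u0 = (w - 1) * u + (u - u0) := by ring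
      rw [e2]
      have k1 := map_add_le_add (P (n + 1)) ((w - 1) * u) (u - u0)
      have k2 := (hPg (n + 1)).2 (w - 1) u
      rw [e1] at k2
      have k3 := (hRP n (u - u0)).trans g1
      have k4 := mul_le_mul_of_nonneg_left ((hRP n u).trans g2) hpw
      nlinarith
    · have e2 : (w * u - u0) * b = (w - 1) * (u * b) + (u - u0) * b := by ring
      rw [e2]
      have hqb := apply_nonneg (Q p) b
      have hrb := apply_nonneg (R (n + 1)) b
      have k1 := map_add_le_add (P (n + 1)) ((w - 1) * (u * b)) ((u - u0) * b)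
      have k2 := (hPg (n + 1)).2 (w - 1) (u * b)
      rw [e1] at k2
      have k3 := (hRP n ((u - u0) * b)).trans ((hRg (n + 1)).2 (u - u0) b)
      have k4 := mul_le_mul_of_nonneg_right g1 hrb
      have k5 := mul_le_mul_of_nonneg_left
        ((hRP n (u * b)).trans (hE.2.2.2 ε₁ h1 u hu b)) hpw
      have k6 : P (n + 1) (1 - w) * D ≤ (1 / 2) ^ (n + 4) := by nlinarith
      have k7 := mul_le_mul_of_nonneg_right k6 hqb
      have k8 : P (n + 1) (1 - w) * (ε₁ * R (n + 1) b) ≤ 1 * (ε * R (n + 1) b) :=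
        mul_le_mul g3 (mul_le_mul_of_nonneg_right h4 hrb) (by positivity) zero_le_one
      have k9 := mul_le_mul_of_nonneg_right h4 hrb
      linarith
  obtain ⟨E0, D0, hE0, hE04⟩ := (hQ _ hp).2 (R 1) (hRg 1) (1 / 4) (by norm_num)
  choose! nx hnx using step
  let S : ℕ → (ℝ → A → Prop) × ℝ := fun n => Nat.rec (E0, D0) (fun k s => nx k s) n
  have hS0 : S 0 = (E0, D0) := rfl
  have hSs : ∀ n, S (n + 1) = nx n (S n) := fun n => rfl
  have hSP : ∀ n, Rep (Q p) (R (n + 1)) (S n).2 (S n).1 := by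
    intro n
    induction n with
    | zero => exact hE0
    | succ n ih =>
      rw [hSs]
      exact (hnx n (S n) ih).1
  have hSd : ∀ n, ∀ ε δ : ℝ, 0 < ε → 0 < δ → ∀ w u, (S (n + 1)).1 ε w → (S n).1 δ u →
      P (n + 1) (w - u) ≤ (1 / 2) ^ (n + 4) + ε + δ ∧
        ∀ b, P (n + 1) ((w - u) * b) ≤
          (1 / 2) ^ (n + 4) * Q p b + (2 * ε + δ) * R (n + 1) b := by
    intro n
    rw [hSs]
    exact (hnx n (S n) (hSP n)).2
  have hch : ∀ n, ∃ z, (S n).1 ((1 / 2) ^ n) z := fun n => (hSP n).2.1 _ (by positivity)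
  choose z hz using hch
  have hzd : ∀ n, P (n + 1) (z (n + 1) - z n) ≤ 2 * (1 / 2) ^ n := by
    intro n
    have h1 := (hSd n _ _ (by positivity) (by positivity) _ _ (hz (n + 1)) (hz n)).1
    have h2 : (0 : ℝ) < (1 / 2) ^ n := by positivity
    have h3 : (1 / 2 : ℝ) ^ (n + 4) = (1 / 2) ^ n * (1 / 16) := by
      rw [pow_add]
      norm_num
    rw [h3, pow_succ] at h1
    linarith
  have hcau : ∀ m n, m ≤ n → ∀ i, P (m + 1) (z (n + i) - z n) ≤
      4 * (1 / 2) ^ n * (1 - (1 / 2) ^ i) := by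
    intro m n hmn i
    induction i with
    | zero => simp
    | succ i ih =>
      have e1 : z (n + (i + 1)) - z n = (z (n + i + 1) - z (n + i)) + (z (n + i) - z n) := by
        rw [← add_assoc]
        abel
      rw [e1]
      have h1 := map_add_le_add (P (m + 1)) (z (n + i + 1) - z (n + i)) (z (n + i) - z n)
      have h2 := (hPmono (m + 1) (n + i + 1) (by omega) (z (n + i + 1) - z (n + i))).trans
        (hzd (n + i))
      rw [pow_add] at h2
      rw [pow_succ (1 / 2 : ℝ) i]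
      nlinarith
  obtain ⟨a, ha⟩ := exists_lim A z (by
    intro U hU
    obtain ⟨m, hm⟩ := hvU U hU
    refine ⟨m + 3, fun n hn => hm _ ?_⟩
    obtain ⟨i, rfl⟩ := Nat.exists_eq_add_of_le hn
    have h1 := (hPle2 m _).trans (hcau m (m + 3) (by omega) i)
    have h2 : (1 / 2 : ℝ) ^ (m + 3) ≤ 1 / 8 := by
      rw [pow_add]
      have : (1 / 2 : ℝ) ^ m ≤ 1 := pow_le_one₀ (by norm_num) (by norm_num)
      linarith
    have h3 : (0 : ℝ) < (1 / 2) ^ i := by positivity
    have h4 : (0 : ℝ) < (1 / 2) ^ (m + 3) := by positivity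
    refine lt_of_le_of_lt h1 ?_
    nlinarith)
  have hbd : ∀ j i, ∀ ε : ℝ, 0 < ε → ∀ w, (S (j + i)).1 ε w → ∀ b, P (j + 1) (w * b) ≤
      ((S j).2 + 1 - (1 / 2) ^ i) * Q p b + 2 * ε * R (j + i + 1) b := by
    intro j i
    induction i with
    | zero =>
      intro ε hε w hw b
      have h1 := (hRP j _).trans ((hSP j).2.2.2 ε hε w hw b)
      have h2 := apply_nonneg (R (j + 1)) b
      rw [pow_zero, add_sub_cancel_right, add_zero]
      nlinarith
    | succ i ih =>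
      intro ε hε w hw b
      have hb := apply_nonneg (Q p) b
      have h3 : (1 / 2 : ℝ) ^ (j + i + 4) ≤ (1 / 2) ^ i * (1 / 2) := by
        have h5 : (1 / 2 : ℝ) ^ (j + i + 4) = (1 / 2) ^ j * ((1 / 2) ^ i * (1 / 16)) := by
          rw [pow_add, pow_add]
          norm_num
          ring
        have h6 : (1 / 2 : ℝ) ^ j ≤ 1 := pow_le_one₀ (by norm_num) (by norm_num)
        have h7 : (0 : ℝ) < (1 / 2) ^ i := by positivity
        rw [h5]
        nlinarith
      have h4 := mul_le_mul_of_nonneg_right h3 hb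
      refine lim0 (K := 3 * R (j + i + 1) b) fun δ hδ => ?_
      obtain ⟨u, hu⟩ := (hSP (j + i)).2.1 δ hδ
      have e1 : w * b = (w - u) * b + u * b := by ring
      rw [e1]
      have h1 := map_add_le_add (P (j + 1)) ((w - u) * b) (u * b)
      have h2 := (hPmono (j + 1) (j + i + 1) (by omega) ((w - u) * b)).trans
        ((hSd (j + i) ε δ hε hδ w u hw hu).2 b)
      have h6 := ih δ hδ u hu b
      have h7 := mul_le_mul_of_nonneg_left (hRR (j + i + 1) b) hε.le
      have e2 : j + (i + 1) + 1 = j + i + 1 + 1 := by omega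
      rw [e2, pow_succ (1 / 2 : ℝ) i]
      nlinarith
  have hlimb : ∀ j b, P (j + 1) (a * b) ≤ ((S j).2 + 1) * Q p b := by
    intro j b
    have hb := apply_nonneg (Q p) b
    have hpb := apply_nonneg (P (j + 1)) b
    have h0 : ∀ n, j ≤ n → P (j + 1) (a * b) ≤ ((S j).2 + 1) * Q p b +
        ((1 / 2) ^ n + P (j + 1) (z n - a)) * P (j + 1) b := by
      intro n hn
      refine lim0 (K := 2 * R (n + 1) b + P (j + 1) b) fun ε hε => ?_
      obtain ⟨w, hw⟩ := (hSP n).2.1 ε hε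
      have e1 : a * b = w * b - ((w - z n) * b + (z n - a) * b) := by ring
      have k1 := map_sub_le_add (P (j + 1)) (w * b) ((w - z n) * b + (z n - a) * b)
      rw [← e1] at k1
      have k2 := map_add_le_add (P (j + 1)) ((w - z n) * b) ((z n - a) * b)
      have k3 := (hPg (j + 1)).2 (z n - a) b
      have k4 := (hPg (j + 1)).2 (w - z n) b
      have k5 := ((hPmono (j + 1) (n + 1) (by omega) _).trans (hRP n _)).trans
        ((hSP n).2.2.1 _ _ hε (by positivity) w (z n) hw (hz n))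
      have k6 := mul_le_mul_of_nonneg_right k5 hpb
      obtain ⟨i, rfl⟩ := Nat.exists_eq_add_of_le hn
      have k7 := hbd j i ε hε w hw b
      have k8 : (0 : ℝ) < (1 / 2) ^ i := by positivity
      have k9 := mul_nonneg k8.le hb
      nlinarith
    have h1 : Tendsto (fun n => ((S j).2 + 1) * Q p b +
        ((1 / 2 : ℝ) ^ n + P (j + 1) (z n - a)) * P (j + 1) b) atTop
        (𝓝 (((S j).2 + 1) * Q p b + (0 + 0) * P (j + 1) b)) := by
      refine tendsto_const_nhds.add (Tendsto.mul_const _ ?_)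
      refine (tendsto_pow_atTop_nhds_zero_of_lt_one (by norm_num) (by norm_num)).add ?_
      have h2 : Tendsto (fun n => P (j + 1) (z n - a)) atTop (𝓝 (P (j + 1) (a - a))) :=
        ((hPg (j + 1)).1.tendsto _).comp (ha.sub_const a)
      rwa [sub_self, map_zero] at h2
    rw [add_zero, zero_mul, add_zero] at h1
    refine ge_of_tendsto h1 ?_
    filter_upwards [eventually_ge_atTop j] with n hn
    exact h0 n hn
  refine ⟨a, ⟨Q p, (hQ _ hp).1, fun r hr => ?_⟩, ?_⟩
  · obtain ⟨n, hn⟩ := hvs r hr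
    exact ⟨(S n).2 + 1, fun b => (hn _).trans ((hPle2 n _).trans (hlimb n b))⟩
  · have h1 : Tendsto (fun n => p (1 - z n)) atTop (𝓝 (p (1 - a))) :=
      (hp.1.tendsto _).comp (ha.const_sub 1)
    have h2 : ∀ n, ∀ ε : ℝ, 0 < ε → ∀ w, (S n).1 ε w →
        p (1 - w) ≤ 3 / 8 - 1 / 8 * (1 / 2) ^ n + ε := by
      intro n
      induction n with
      | zero =>
        intro ε hε w hw
        have h3 := hE04 ε hε w hw
        norm_num
        linarith
      | succ n ih =>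
        intro ε hε w hw
        refine lim0 (K := 2) fun δ hδ => ?_
        obtain ⟨u, hu⟩ := (hSP n).2.1 δ hδ
        have e1 : 1 - w = (1 - u) - (w - u) := by ring
        rw [e1]
        have h3 := map_sub_le_add p (1 - u) (w - u)
        have h4 := (hPmono 0 (n + 1) (by omega) (w - u)).trans
          ((hSd n ε δ hε hδ w u hw hu).1)
        rw [hP0] at h4
        have h5 : (1 / 2 : ℝ) ^ (n + 4) = (1 / 2) ^ n * (1 / 16) := by
          rw [pow_add]
          norm_num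
        rw [h5] at h4
        have h6 := ih δ hδ u hu
        rw [pow_succ]
        linarith
    have h3 : p (1 - a) ≤ 3 / 8 + 0 := by
      have h5 : Tendsto (fun n : ℕ => (3 / 8 : ℝ) + (1 / 2) ^ n) atTop (𝓝 (3 / 8 + 0)) :=
        tendsto_const_nhds.add (tendsto_pow_atTop_nhds_zero_of_lt_one (by norm_num) (by norm_num))
      refine le_of_tendsto_of_tendsto' h1 h5 fun n => ?_
      have h6 := h2 n _ (by positivity) (z n) (hz n)
      have : (0 : ℝ) < (1 / 2) ^ n := by positivity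
      linarith
    linarith

end MB

theorem hMB : StMB := MB.hMB'

end Pool.Agent.Helper67.SL
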